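import Pool.Agent.helper12.DD.Spec

set_option autoImplicit false

open Pool.Agent.helper49.Blk

namespace Pool.Agent.DD

theorem DFP_iff {H : Type} [Group H] (p : ℕ) (ψ : H → ℂ) (m d : ℕ) (hm : ψ 1 = m) :
    Defc p ψ d ↔ padicValNat p m + d = padicValNat p (Nat.card H) := by
  constructor
  · rintro ⟨m', h1, h2⟩
    have : m' = m := by
      have h3 : (m' : ℂ) = (m : ℂ) := h1.symm.trans hm
      exact_mod_cast h3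
    rw [← this]; exact h2
  · intro h
    exact ⟨m, hm, h⟩

theorem DFP_arith (p : ℕ) (hp : p.Prime) (m₁ m₂ c₁ c₂ d : ℕ) (hm₁ : 0 < m₁) (hm₂ : 0 < m₂)
    (hc₁ : 0 < c₁) (hc₂ : 0 < c₂) (h₁ : m₁ ∣ c₁) (h₂ : m₂ ∣ c₂) :
    padicValNat p (m₁ * m₂) + d = padicValNat p (c₁ * c₂) ↔
      ∃ i j, i + j = d ∧ padicValNat p m₁ + i = padicValNat p c₁ ∧
        padicValNat p m₂ + j = padicValNat p c₂ := by
  haveI : Fact p.Prime := ⟨hp⟩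
  rw [padicValNat.mul hm₁.ne' hm₂.ne', padicValNat.mul hc₁.ne' hc₂.ne']
  have e₁ : padicValNat p m₁ ≤ padicValNat p c₁ :=
    (padicValNat_dvd_iff_le hc₁.ne').1 (dvd_trans pow_padicValNat_dvd h₁)
  have e₂ : padicValNat p m₂ ≤ padicValNat p c₂ :=
    (padicValNat_dvd_iff_le hc₂.ne').1 (dvd_trans pow_padicValNat_dvd h₂)
  constructor
  · intro h
    exact ⟨padicValNat p c₁ - padicValNat p m₁, padicValNat p c₂ - padicValNat p m₂,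
      by omega, by omega, by omega⟩
  · rintro ⟨i, j, h3, h4, h5⟩
    omega

theorem DFP (hD : DVD_stmt) (hI : IRF_stmt) : DFP_stmt := by
  intro p hp A B _ _ _ _
  have key : ∀ (G : Type) [Group G] [Finite G], ∀ χ ∈ Irr G, ∃ m : ℕ, 0 < m ∧ χ 1 = m ∧
      m ∣ Nat.card G := by
    intro G _ _ χ hχ
    obtain ⟨m, hm, hm1⟩ := ((hI G).2 χ hχ).1
    exact ⟨m, hm, hm1, hD G χ hχ m hm1⟩
  refine ⟨?_, ?_, ?_⟩
  · intro N₁ N₂ ψ₁ h₁ ψ₂ h₂ d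
    obtain ⟨m₁, hm₁, e₁, d₁⟩ := key N₁ ψ₁ h₁
    obtain ⟨m₂, hm₂, e₂, d₂⟩ := key N₂ ψ₂ h₂
    have e : ots N₁ N₂ ψ₁ ψ₂ 1 = ((m₁ * m₂ : ℕ) : ℂ) := by
      show ψ₁ 1 * ψ₂ 1 = _
      rw [e₁, e₂]; push_cast; rfl
    have hc : Nat.card ↥(N₁.prod N₂) = Nat.card N₁ * Nat.card N₂ := by
      rw [Nat.card_congr (Subgroup.prodEquiv N₁ N₂).toEquiv, Nat.card_prod]
    rw [DFP_iff p _ _ d e, hc,
      DFP_arith p hp m₁ m₂ _ _ d hm₁ hm₂ Nat.card_pos Nat.card_pos d₁ d₂]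
    constructor
    · rintro ⟨i, j, h3, h4, h5⟩
      exact ⟨i, j, h3, (DFP_iff p _ _ i e₁).2 h4, (DFP_iff p _ _ j e₂).2 h5⟩
    · rintro ⟨i, j, h3, h4, h5⟩
      exact ⟨i, j, h3, (DFP_iff p _ _ i e₁).1 h4, (DFP_iff p _ _ j e₂).1 h5⟩
  · intro ψ₁ h₁ ψ₂ h₂ d
    obtain ⟨m₁, hm₁, e₁, d₁⟩ := key A ψ₁ h₁
    obtain ⟨m₂, hm₂, e₂, d₂⟩ := key B ψ₂ h₂
    have e : ot ψ₁ ψ₂ 1 = ((m₁ * m₂ : ℕ) : ℂ) := by
      show ψ₁ 1 * ψ₂ 1 = _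
      rw [e₁, e₂]; push_cast; rfl
    rw [DFP_iff p _ _ d e, Nat.card_prod,
      DFP_arith p hp m₁ m₂ _ _ d hm₁ hm₂ Nat.card_pos Nat.card_pos d₁ d₂]
    constructor
    · rintro ⟨i, j, h3, h4, h5⟩
      exact ⟨i, j, h3, (DFP_iff p _ _ i e₁).2 h4, (DFP_iff p _ _ j e₂).2 h5⟩
    · rintro ⟨i, j, h3, h4, h5⟩
      exact ⟨i, j, h3, (DFP_iff p _ _ i e₁).1 h4, (DFP_iff p _ _ j e₂).1 h5⟩
  · intro ψ hψ
    obtain ⟨m, hm, e, hd⟩ := key A ψ hψ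
    haveI : Fact p.Prime := ⟨hp⟩
    have hA : 0 < Nat.card A := Nat.card_pos
    have e₁ : padicValNat p m ≤ padicValNat p (Nat.card A) :=
      (padicValNat_dvd_iff_le hA.ne').1 (dvd_trans pow_padicValNat_dvd hd)
    exact ⟨padicValNat p (Nat.card A) - padicValNat p m, (DFP_iff p _ _ _ e).2 (by omega)⟩

end Pool.Agent.DD
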